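import Pool.Agent.H85.LSP.Def2

/-!
# LSQ: the limit of the stages
-/

set_option autoImplicit false

namespace Pool.LSP

open Filter Topology

namespace LMX

section

variable {l : ℝ} {t : ℕ → ℕ} {G : ℕ}

theorem t_le (ht : ∀ k, t k + G + 1 ≤ t (k + 1)) {k k' : ℕ} (h : k ≤ k') : t k ≤ t k' :=
  monotone_nat_of_le_succ (fun n => by have := ht n; omega) h

theorem t_ge (ht : ∀ k, t k + G + 1 ≤ t (k + 1)) (k : ℕ) : k ≤ t k := by
  induction k with
  | zero => exact Nat.zero_le _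
  | succ k ih => have := ht k; omega

theorem t_pow (ht : ∀ k, t k + G + 1 ≤ t (k + 1)) (hl : 1 < l) (hG : 2 ≤ l ^ G) (k i : ℕ) (n : ℤ) :
    l ^ (n - t (k + i)) ≤ l ^ (n - t k) * (1 / 2) ^ i := by
  have hl0 : (0 : ℝ) < l := by linarith
  induction i with
  | zero => simp
  | succ i ih =>
    have h1 := ht (k + i)
    have h2 : l ^ (n - t (k + (i + 1))) ≤ l ^ (n - t (k + i)) * (1 / 2) := by
      have e1 : l ^ (n - t (k + (i + 1))) ≤ l ^ (n - t (k + i) - (G : ℤ)) := by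
        refine zpow_le_zpow_right₀ hl.le ?_
        have : (t (k + i) : ℤ) + G + 1 ≤ t (k + (i + 1)) := by
          have e : k + (i + 1) = k + i + 1 := by ring
          rw [e]
          exact_mod_cast h1
        omega
      refine e1.trans ?_
      rw [zpow_sub₀ hl0.ne', zpow_natCast, div_eq_mul_one_div]
      refine mul_le_mul_of_nonneg_left ?_ (zpow_pos hl0 _).le
      exact one_div_le_one_div_of_le (by norm_num) hG
    calc l ^ (n - t (k + (i + 1))) ≤ l ^ (n - t (k + i)) * (1 / 2) := h2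
      _ ≤ l ^ (n - t k) * (1 / 2) ^ i * (1 / 2) := mul_le_mul_of_nonneg_right ih (by norm_num)
      _ = l ^ (n - t k) * (1 / 2) ^ (i + 1) := by ring

/-- The limit. -/
theorem limit {x : ℕ → ℤ → ℝ} {κ : ℝ} (ht : ∀ k, t k + G + 1 ≤ t (k + 1)) (hl : 1 < l)
    (hG : 2 ≤ l ^ G)
    (hx : ∀ k, ∀ n : ℤ, n ≤ t k → |x (k + 1) n - x k n| ≤ 2 * κ * l ^ (n - t k)) (hκ : 0 < κ) :
    ∃ ξ : ℤ → ℝ, Tendsto x atTop (𝓝 ξ) ∧
      ∀ k, ∀ n : ℤ, n ≤ t k → |ξ n - x k n| ≤ 4 * κ * l ^ (n - t k) := by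
  have hl0 : (0 : ℝ) < l := by linarith
  have hd : ∀ (k : ℕ) (n : ℤ), n ≤ t k → ∀ i : ℕ,
      dist (x (k + i) n) (x (k + (i + 1)) n) ≤ 2 * κ * l ^ (n - t k) * (1 / 2) ^ i := by
    intro k n hn i
    rw [dist_comm, Real.dist_eq]
    have h1 := t_le ht (Nat.le_add_right k i)
    have h2 := hx (k + i) n (by omega)
    refine h2.trans ?_
    rw [mul_assoc (2 * κ) (l ^ (n - t k)) ((1 / 2) ^ i)]
    exact mul_le_mul_of_nonneg_left (t_pow ht hl hG k i n) (by positivity)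
  have hlim : ∀ n : ℤ, ∃ a : ℝ, Tendsto (fun k => x k n) atTop (𝓝 a) := by
    intro n
    have hn : n ≤ t n.toNat := by
      have h1 := t_ge ht n.toNat
      have h2 := Int.self_le_toNat n
      omega
    have h1 : CauchySeq (fun i => x (n.toNat + i) n) :=
      cauchySeq_of_le_geometric (1 / 2) (2 * κ * l ^ (n - t n.toNat)) (by norm_num) (hd _ n hn)
    obtain ⟨a, ha⟩ := cauchySeq_tendsto_of_complete h1
    refine ⟨a, ?_⟩
    rw [← tendsto_add_atTop_iff_nat n.toNat]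
    refine ha.congr fun i => ?_
    rw [Nat.add_comm]
  choose ξ hξ using hlim
  refine ⟨ξ, tendsto_pi_nhds.2 hξ, fun k n hn => ?_⟩
  have h1 : Tendsto (fun i => x (k + i) n) atTop (𝓝 (ξ n)) := by
    refine ((tendsto_add_atTop_iff_nat k).2 (hξ n)).congr fun i => ?_
    rw [Nat.add_comm]
  have h2 := dist_le_of_le_geometric_of_tendsto₀ (1 / 2) (2 * κ * l ^ (n - t k)) (by norm_num)
    (hd k n hn) h1
  rw [dist_comm, Real.dist_eq, Nat.add_zero] at h2
  refine h2.trans (le_of_eq ?_)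
  ring

end

theorem exists_pow {l : ℝ} (hl : 1 < l) {a b : ℝ} (hb : 0 < b) :
    ∃ n : ℕ, a * l ^ (-(n : ℤ)) ≤ b := by
  have hl0 : (0 : ℝ) < l := by linarith
  obtain ⟨n, hn⟩ := pow_unbounded_of_one_lt (a / b) hl
  refine ⟨n, ?_⟩
  rw [zpow_neg, zpow_natCast, ← div_eq_mul_inv, div_le_iff₀ (pow_pos hl0 n)]
  rw [div_lt_iff₀ hb] at hn
  linarith

theorem anti {l : ℝ} (hl : 1 < l) {a : ℝ} (ha : 0 ≤ a) {n m : ℤ} (h : n ≤ m) :
    a * l ^ n ≤ a * l ^ m :=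
  mul_le_mul_of_nonneg_left (zpow_le_zpow_right₀ hl.le h) ha

end LMX

open LMX in
/-- **LMX.** -/
theorem t_lmx (hLSM : LSMStmt) : LMXStmt := by
  intro V β l κ ν μF c R hF hκ hν hμ hc0 hc1 hc2 hc3 hc4 hS
  have hl := hF.hl
  have hl0 : (0 : ℝ) < l := by linarith
  -- the gap
  obtain ⟨G', hG'⟩ := exists_pow (a := 4 * κ) hl (show 0 < μF / 2 by linarith)
  obtain ⟨G₁, hG₁⟩ := exists_pow (a := 4 * κ) hl (show 0 < ν / 2 by linarith)
  obtain ⟨G₂, hG₂⟩ := pow_unbounded_of_one_lt 2 hl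
  obtain ⟨G, hG⟩ : ∃ G : ℕ, G = R + G' + G₁ + G₂ := ⟨_, rfl⟩
  have hGa : 4 * κ * l ^ (-(G : ℤ)) ≤ ν / 2 :=
    (anti hl (by linarith) (by omega)).trans hG₁
  have hGb : 2 ≤ l ^ G := hG₂.le.trans (pow_le_pow_right₀ hl.le (by omega))
  -- one stage
  have hst : ∀ (k : ℕ) (x : V) (t : ℕ), ∃ (N : ℕ) (x' : V), 1 ≤ N ∧
      (∀ n : ℤ, n ≤ t → |(x' : ℤ → ℝ) n - (x : ℤ → ℝ) n| ≤ 2 * κ * l ^ (n - t)) ∧
      (∀ n : ℕ, n < N → ν ≤ hd ((x' : ℤ → ℝ) ((t + n : ℕ) : ℤ))) ∧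
      (∃ p : ℤ, (x' : ℤ → ℝ) ((t + N : ℕ) : ℤ) = c + p) ∧
      ∀ n : ℕ, 1 ≤ n → n ≤ G + k → μF ≤ hd ((x' : ℤ → ℝ) ((t + N + n : ℕ) : ℤ)) ∧
        (R ≤ n → 16 * κ ≤ hd ((x' : ℤ → ℝ) ((t + N + n : ℕ) : ℤ))) := by
    intro k x t
    obtain ⟨N, hN, X', hX', hb, h1, h2, h3⟩ := hS (G + k) (fun n => (x : ℤ → ℝ) (n + t))
      (hF.sh _ x.2 t)
    refine ⟨N, ⟨fun n => X' (n + (-(t : ℤ))), hF.sh _ hX' _⟩, hN, fun n hn => ?_, fun n hn => ?_,
      ?_, fun n hn1 hn2 => ?_⟩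
    · obtain ⟨j, hj⟩ := Int.eq_ofNat_of_zero_le (show 0 ≤ (t : ℤ) - n by omega)
      have h4 := hb j
      have e1 : n + -(t : ℤ) = -(j : ℤ) := by omega
      have e2 : n - (t : ℤ) = -(j : ℤ) := by omega
      have e3 : -(j : ℤ) + t = n := by omega
      show |X' (n + -(t : ℤ)) - (x : ℤ → ℝ) n| ≤ _
      rw [e1, e2]
      simp only [e3] at h4
      exact h4
    · show ν ≤ hd (X' (((t + n : ℕ) : ℤ) + -(t : ℤ)))
      have e1 : ((t + n : ℕ) : ℤ) + -(t : ℤ) = n := by push_cast; ring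
      rw [e1]
      exact h1 n hn
    · obtain ⟨p, hp⟩ := h2
      refine ⟨p, ?_⟩
      show X' (((t + N : ℕ) : ℤ) + -(t : ℤ)) = _
      have e1 : ((t + N : ℕ) : ℤ) + -(t : ℤ) = N := by push_cast; ring
      rw [e1]
      exact hp
    · show μF ≤ hd (X' (((t + N + n : ℕ) : ℤ) + -(t : ℤ))) ∧
        (R ≤ n → 16 * κ ≤ hd (X' (((t + N + n : ℕ) : ℤ) + -(t : ℤ))))
      have e1 : ((t + N + n : ℕ) : ℤ) + -(t : ℤ) = ((N + n : ℕ) : ℤ) := by push_cast; ring
      rw [e1]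
      exact h3 n hn1 hn2
  choose Nf xf hN hb h1 h2 h3 using hst
  obtain ⟨s, hs0, hs⟩ : ∃ s : ℕ → V × ℕ, s 0 = (0, 0) ∧ ∀ k, s (k + 1) =
      (xf k (s k).1 (s k).2, (s k).2 + Nf k (s k).1 (s k).2 + (G + k)) :=
    ⟨fun k => Nat.rec (0, 0) (fun k s => (xf k s.1 s.2, s.2 + Nf k s.1 s.2 + (G + k))) k, rfl,
      fun _ => rfl⟩
  obtain ⟨x, hx⟩ : ∃ x : ℕ → ℤ → ℝ, x = fun k => ((s k).1 : ℤ → ℝ) := ⟨_, rfl⟩
  obtain ⟨t, ht⟩ : ∃ t : ℕ → ℕ, t = fun k => (s k).2 := ⟨_, rfl⟩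
  obtain ⟨T, hT⟩ : ∃ T : ℕ → ℕ, T = fun k => (s k).2 + Nf k (s k).1 (s k).2 := ⟨_, rfl⟩
  have ht0 : t 0 = 0 := by rw [ht]; simp only [hs0]
  have htT : ∀ k, t (k + 1) = T k + (G + k) := fun k => by
    rw [ht, hT]
    simp only [hs k]
  have hTt : ∀ k, t k + 1 ≤ T k := fun k => by
    rw [ht, hT]
    have := hN k (s k).1 (s k).2
    show (s k).2 + 1 ≤ (s k).2 + Nf k (s k).1 (s k).2
    omega
  have htG : ∀ k, t k + G + 1 ≤ t (k + 1) := fun k => by
    have h4 := htT k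
    have h5 := hTt k
    omega
  have hxV : ∀ k, x k ∈ V := fun k => by
    rw [hx]
    exact (s k).1.2
  have hxs : ∀ k, x (k + 1) = (xf k (s k).1 (s k).2 : ℤ → ℝ) := fun k => by
    rw [hx]
    simp only [hs k]
  have hx1 : ∀ k, ∀ n : ℤ, n ≤ t k → |x (k + 1) n - x k n| ≤ 2 * κ * l ^ (n - t k) := by
    intro k n hn
    rw [hxs, hx, ht]
    rw [ht] at hn
    exact hb k _ _ n hn
  obtain ⟨ξ, hξ, hξn⟩ := limit htG hl hGb hx1 hκ
  have hξV : ξ ∈ V := by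
    have := hF.fin
    have h4 : IsClosed (V : Set (ℤ → ℝ)) := Submodule.closed_of_finiteDimensional V
    exact h4.mem_of_tendsto hξ (Eventually.of_forall hxV)
  -- the values
  have hval : ∀ k, ∀ n : ℕ, t k ≤ n → n < t (k + 1) → n ≠ T k → nr (ξ n) ≤ c := by
    intro k n hn1 hn2 hn3
    have g1 := hξn (k + 1) n (by exact_mod_cast hn2.le)
    have g2 := hd_ge_sub (ξ n) (x (k + 1) n)
    have g3 := nr_eq (ξ n)
    have g4 := htT k
    rcases lt_or_gt_of_ne hn3 with hlt | hgt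
    · -- before the hit
      obtain ⟨j, hj⟩ := Nat.exists_eq_add_of_le hn1
      have g5 : ν ≤ hd (x (k + 1) n) := by
        rw [hxs, hj]
        have g6 := h1 k (s k).1 (s k).2 j (by
          rw [hT] at hlt
          rw [ht] at hj
          simp only at hlt hj
          omega)
        rw [ht]
        exact g6
      have g7 : 4 * κ * l ^ ((n : ℤ) - t (k + 1)) ≤ ν / 2 :=
        (anti hl (by linarith) (by omega)).trans hGa
      linarith
    · obtain ⟨j, hj⟩ := Nat.exists_eq_add_of_lt hgt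
      have hj' : n = T k + (j + 1) := by omega
      have g6 := h3 k (s k).1 (s k).2 (j + 1) (by omega) (by omega)
      have e1 : (xf k (s k).1 (s k).2 : ℤ → ℝ)
          (((s k).2 + Nf k (s k).1 (s k).2 + (j + 1) : ℕ) : ℤ) = x (k + 1) n := by
        rw [hxs, hj', hT]
      rw [e1] at g6
      rcases Nat.lt_or_ge (j + 1) R with hR | hR
      · have g7 : 4 * κ * l ^ ((n : ℤ) - t (k + 1)) ≤ μF / 2 :=
          (anti hl (by linarith) (by omega)).trans hG'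
        have g8 := g6.1
        linarith
      · have g8 := g6.2 hR
        have g7 : 4 * κ * l ^ ((n : ℤ) - t (k + 1)) ≤ 4 * κ * l ^ (0 : ℤ) :=
          anti hl (by linarith) (by omega)
        rw [zpow_zero, mul_one] at g7
        linarith
  have hhit : ∀ k, |nr (ξ (T k)) - c| ≤ 4 * κ * l ^ (-((G + k : ℕ) : ℤ)) := by
    intro k
    have g4 := htT k
    have g1 := hξn (k + 1) (T k) (by exact_mod_cast (by omega : T k ≤ t (k + 1)))
    obtain ⟨p, hp⟩ := h2 k (s k).1 (s k).2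
    have e1 : x (k + 1) (T k) = c + p := by
      rw [hxs, hT]
      exact hp
    have e2 : ((T k : ℕ) : ℤ) - t (k + 1) = -((G + k : ℕ) : ℤ) := by
      rw [g4]
      push_cast
      ring
    rw [e1, e2] at g1
    have g2 := abs_nr_sub (ξ (T k)) (c + p)
    have g3 : nr (c + (p : ℝ)) = c := by rw [nr_add_int, nr_of_mem hc0 hc1]
    rw [g3] at g2
    exact g2.trans g1
  have hblock : ∀ n : ℕ, ∃ k, t k ≤ n ∧ n < t (k + 1) := by
    intro n
    classical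
    have hex : ∃ k : ℕ, n < t (k + 1) := ⟨n, by
      have h4 := t_ge htG (n + 1)
      omega⟩
    refine ⟨Nat.find hex, ?_, Nat.find_spec hex⟩
    rcases Nat.eq_zero_or_pos (Nat.find hex) with h0 | h0
    · rw [h0, ht0]
      exact Nat.zero_le _
    · have h4 := Nat.find_min hex (m := Nat.find hex - 1) (by omega)
      rw [Nat.sub_add_cancel h0] at h4
      omega
  refine ⟨ξ, hξV, hLSM _ c (fun n => ⟨nr_nonneg _, nr_le_half _⟩) (fun ε hε => ?_)
    fun ε hε => ?_⟩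
  · obtain ⟨K, hK⟩ := exists_pow (a := 4 * κ) hl hε
    refine eventually_atTop.2 ⟨t K, fun n hn => ?_⟩
    obtain ⟨k, hk1, hk2⟩ := hblock n
    by_cases h4 : n = T k
    · have hKk : K ≤ k := by
        by_contra hcon
        push Not at hcon
        have := t_le htG (Nat.succ_le_of_lt hcon)
        simp only [Nat.succ_eq_add_one] at this
        omega
      have g1 := hhit k
      have g2 : 4 * κ * l ^ (-((G + k : ℕ) : ℤ)) ≤ ε :=
        (anti hl (by linarith) (by omega)).trans hK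
      rw [h4]
      have g3 := le_abs_self (nr (ξ (T k)) - c)
      linarith
    · have := hval k n hk1 hk2 h4
      linarith
  · refine frequently_atTop.2 fun n => ?_
    obtain ⟨K, hK⟩ := exists_pow (a := 4 * κ) hl hε
    refine ⟨T (n + K), ?_, ?_⟩
    · have h4 := hTt (n + K)
      have h5 := t_ge htG (n + K)
      omega
    · have g1 := hhit (n + K)
      have g2 : 4 * κ * l ^ (-((G + (n + K) : ℕ) : ℤ)) ≤ ε :=
        (anti hl (by linarith) (by omega)).trans hK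
      have g3 := neg_abs_le (nr (ξ (T (n + K))) - c)
      linarith

end Pool.LSP
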